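import Pool.Agent.W593.ZT.Stm

/-! Project ZT: the frozen statement from the main theorem and the bridges. -/

open scoped Classical

set_option autoImplicit false

namespace Pool.Agent.W593.ZT

theorem final (hMAIN : S_MAIN) (hBR0 : S_BR0) (hBR2 : S_BR2) :
    ∀ m : ℕ, 1 ≤ m → ∀ n : ℕ,
      ((∀ c : Fin n → Fin n → Fin 2, (∀ a b, c a b = c b a) →
          ∃ T : SimpleGraph (Fin (m + 1)), T.IsTree ∧ T.diam ≤ 4 ∧
            ∃ f : Fin (m + 1) → Fin n, Function.Injective f ∧ ∃ col : Fin 2,
              ∀ u v : Fin (m + 1), T.Adj u v → c (f u) (f v) = col) ↔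
       (∀ c : Fin n → Fin n → ZMod m, (∀ a b, c a b = c b a) →
          ∃ T : SimpleGraph (Fin (m + 1)), T.IsTree ∧ T.diam ≤ 4 ∧
            ∃ f : Fin (m + 1) → Fin n, Function.Injective f ∧
              (∑ u : Fin (m + 1), ∑ v : Fin (m + 1),
                (if T.Adj u v ∧ u < v then c (f u) (f v) else (0 : ZMod m))) = 0)) := by
  intro m hm n
  by_cases hn : n < m + 1
  · have hno : ∀ f : Fin (m + 1) → Fin n, ¬ Function.Injective f := by
      intro f hf
      have := Fintype.card_le_of_injective f hf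
      simp only [Fintype.card_fin] at this
      omega
    constructor
    · intro h
      obtain ⟨T, _, _, f, hf, _⟩ := h (fun _ _ => 0) (fun _ _ => rfl)
      exact absurd hf (hno f)
    · intro h
      obtain ⟨T, _, _, f, hf, _⟩ := h (fun _ _ => 0) (fun _ _ => rfl)
      exact absurd hf (hno f)
  · push Not at hn
    constructor
    · intro _ c hc
      haveI : NeZero m := ⟨by omega⟩
      obtain ⟨g, p, hp, hsum⟩ := hMAIN (Fin (m + 1)) (ZMod m)
        (fun u v => c (Fin.castLE hn u) (Fin.castLE hn v)) (fun x y => hc _ _)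
        (by simp only [Fintype.card_fin, ZMod.card])
      obtain ⟨T, hT, hd, hadj, hw⟩ := hBR0 (m + 1) g p hp
      refine ⟨T, hT, hd, Fin.castLE hn, Fin.castLE_injective hn, ?_⟩
      have h1 := hw (ZMod m) (fun u v => c (Fin.castLE hn u) (Fin.castLE hn v))
        (fun u v => hc _ _)
      rw [h1]
      rw [← hsum]
      apply Finset.sum_congr _ (fun _ _ => rfl)
      ext v
      simp only [Finset.mem_erase]
    · intro _ c hc
      obtain ⟨g, p, col, hp⟩ := hBR2 (Fin (m + 1))
        (fun u v => c (Fin.castLE hn u) (Fin.castLE hn v)) (fun x y => hc _ _) ⟨0⟩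
      obtain ⟨T, hT, hd, hadj, hw⟩ := hBR0 (m + 1) g p
        (fun v hv => ⟨(hp v hv).1, (hp v hv).2.1⟩)
      refine ⟨T, hT, hd, Fin.castLE hn, Fin.castLE_injective hn, col, ?_⟩
      intro u v huv
      rcases (hadj u v).mp huv with ⟨h1, h2⟩ | ⟨h1, h2⟩
      · have := (hp u h1).2.2
        rw [h2] at this
        exact this
      · have := (hp v h1).2.2
        rw [h2] at this
        rw [hc]
        exact this

end Pool.Agent.W593.ZT
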