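import Pool.Agent.W593.ZT.Stm

/-! Project ZT: the subgroup of order three, from its cases. -/

open scoped Classical

set_option autoImplicit false

namespace Pool.Agent.W593.ZT

theorem k3 (hPL : S_PL) (hK3W : S_K3W) (hI : S_K3I) (hL0 : S_K3L0) (hL1 : S_K3L1)
    (hL2A : S_K3L2A) (hL2B : S_K3L2B) : S_K3 := by
  intro V G _ _ _ c M B h
  obtain ⟨b1, hb1⟩ := h.ne
  obtain ⟨hU, hcG, hcB, hff⟩ := hK3W V G c M B h
  have hq : 2 ≤ M.index := by
    have h0 : M.index ≠ 0 := AddSubgroup.index_ne_zero_of_finite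
    have h1 : M.index ≠ 1 := by
      intro hh
      exact h.mt (AddSubgroup.index_eq_one.mp hh)
    omega
  -- the working set
  have hW : ∃ W : Finset V, Wok c M B W ∧ B ⊆ W ∧ nc c M W B = nc c M Finset.univ B ∧
      (Finset.univ \ B).card ≤ (W \ B).card + 1 := by
    by_cases hy : ∃ y ∈ Us c M B, (Cs c B y).card = 3
    · obtain ⟨y, hyU, hy3⟩ := hy
      have hyU' := hyU
      simp only [Us, Finset.mem_sdiff, Finset.mem_univ, true_and] at hyU'
      refine ⟨Finset.univ.erase y, Or.inr ⟨y, hyU, hy3, rfl⟩, ?_, ?_, ?_⟩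
      · intro b hb
        rw [Finset.mem_erase]
        refine ⟨?_, Finset.mem_univ b⟩
        rintro rfl
        exact hyU'.1 hb
      · unfold nc
        ext z
        simp only [Finset.mem_filter, Finset.mem_sdiff, Finset.mem_erase, Finset.mem_univ,
          and_true, true_and]
        constructor
        · rintro ⟨⟨h1, h2⟩, h3⟩
          exact ⟨h2, h3⟩
        · rintro ⟨h2, h3⟩
          refine ⟨⟨?_, h2⟩, h3⟩
          rintro rfl
          apply hyU'.2
          unfold nc
          simp only [Finset.mem_filter, Finset.mem_sdiff, Finset.mem_univ, true_and]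
          exact ⟨h2, h3⟩
      · have : (Finset.univ.erase y) \ B = (Finset.univ \ B).erase y := by
          ext z
          simp only [Finset.mem_sdiff, Finset.mem_erase, Finset.mem_univ, and_true, true_and]
        rw [this]
        have := Finset.pred_card_le_card_erase (s := Finset.univ \ B) (a := y)
        omega
    · push Not at hy
      refine ⟨Finset.univ, Or.inl ⟨rfl, ?_⟩, Finset.subset_univ _, rfl, by omega⟩
      intro z hz
      have h1 := (hU z hz).2.2
      have h2 := hy z hz
      omega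
  obtain ⟨W, hWok, hBW, hnc, hWc⟩ := hW
  have hsize : 2 * M.index ≤ (W \ B).card + (nc c M W B).card + 2 := by
    rw [hnc]
    have h1 := h.sz
    have h2 := h.q2
    rcases h1 with h1 | h1
    · by_cases hq2 : M.index = 2
      · have := h2 hq2
        omega
      · omega
    · omega
  rcases hPL V G c h.ctx.sym M W B b1 h.mt hBW hb1 hsize with hi | ⟨S', a, Hp, z0, s, hii⟩
  · exact hI V G c M B W h hWok hi
  · rcases hii.lev with ⟨e1, e2, e3⟩ | ⟨l1, l2, l3, l4⟩ | ⟨l1, l2, l3, l4, l5⟩
    · subst e1 e2 e3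
      exact hL0 V G c _ _ W b1 a z0 h hWok hb1 hii
    · exact hL1 V G c M B W b1 S' a Hp z0 s h hWok hb1 hii l1 l2 l3 l4
    · by_cases hs : 2 ≤ ∑ z ∈ Us c M B ∩ va c S' a W Hp, ((Cs c B z).card - 1)
      · exact hL2A V G c M B W b1 S' a Hp z0 s h hWok hb1 hii l1 l3 l4 l5 hs
      · exact hL2B V G c M B W b1 S' a Hp z0 s h hWok hb1 hii l2 l3 l4 (by omega)

end Pool.Agent.W593.ZT
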