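import Pool.Agent.W593.ZT.TREG

/-! Project ZT: the main theorem from its parts. -/

open scoped Classical

set_option autoImplicit false

namespace Pool.Agent.W593.ZT

theorem eq_of_card_two {G : Type} [AddCommGroup G] [Fintype G] [IsAddCyclic G]
    (M M' : AddSubgroup G) (h : Nat.card M = 2) (h' : Nat.card M' = 2) : M = M' := by
  have key : ∀ N : AddSubgroup G, Nat.card N = 2 →
      (N : Set G) = ((Finset.univ.filter (fun a : G => 2 • a = 0) : Finset G) : Set G) := by
    intro N hN
    have h1 : (Finset.univ.filter (fun a : G => 2 • a = 0)).card ≤ 2 :=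
      IsAddCyclic.card_nsmul_eq_zero_le (by norm_num)
    have h2 : (Finset.univ.filter (fun a : G => a ∈ N)).card = 2 := by
      rw [← hN, Nat.card_eq_fintype_card, Fintype.card_subtype]
    have h3 : Finset.univ.filter (fun a : G => a ∈ N) ⊆
        Finset.univ.filter (fun a : G => 2 • a = 0) := by
      intro a ha
      simp only [Finset.mem_filter, Finset.mem_univ, true_and] at ha ⊢
      have h4 : (Nat.card N) • (⟨a, ha⟩ : N) = 0 := card_nsmul_eq_zero'
      rw [hN] at h4
      have h5 := congrArg (fun y : N => (y : G)) h4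
      simpa using h5
    have h4 := Finset.eq_of_subset_of_card_le h3 (by omega)
    rw [← h4]
    ext a
    simp
  have : (M : Set G) = (M' : Set G) := by rw [key M h, key M' h']
  exact SetLike.coe_injective this

theorem inter_two_three {G : Type} [AddCommGroup G] [Fintype G]
    (M N : AddSubgroup G) (h : Nat.card M = 2) (h' : Nat.card N = 3) {x : G} (hx : x ∈ M)
    (hy : x ∈ N) : x = 0 := by
  have h1 : (2 : ℕ) • x = 0 := by
    have h4 : (Nat.card M) • (⟨x, hx⟩ : M) = 0 := card_nsmul_eq_zero'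
    rw [h] at h4
    simpa using congrArg (fun y : M => (y : G)) h4
  have h2 : (3 : ℕ) • x = 0 := by
    have h4 : (Nat.card N) • (⟨x, hy⟩ : N) = 0 := card_nsmul_eq_zero'
    rw [h'] at h4
    simpa using congrArg (fun y : N => (y : G)) h4
  have h3 : (3 : ℕ) • x = (2 : ℕ) • x + x := succ_nsmul x 2
  rw [h1, h2, zero_add] at h3
  exact h3.symm

theorem fin_aux (hDIR : S_DIR) (hK4 : S_K4) (hK3 : S_K3) {V G : Type} [Fintype V]
    [AddCommGroup G] [Fintype G] (c : V → V → G) (hctx : Ctx c) (B : Finset V) (hB : B.Nonempty)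
    (hff : Fintype.card G ≤ FF c B + 1)
    (h2 : ∀ M : AddSubgroup G, Nat.card M = 2 → M.index ≤ (nc c M Finset.univ B).card + 1)
    (h3 : ∀ M : AddSubgroup G, Nat.card M = 3 → M ≠ ⊤ →
      (nc c M Finset.univ B).card + 2 ≤ M.index →
      (B.card ≤ 5 ∨ B.card ≤ 4 + (nc c M Finset.univ B).card) ∧ (M.index = 2 → B.card ≤ 4))
    (h4 : ∀ M : AddSubgroup G, 4 ≤ Nat.card M → M ≠ ⊤ →
      Fintype.card G ≤ 2 * (Finset.univ \ B).card) : False := by
  by_cases hbad : ∃ M : AddSubgroup G, M ≠ ⊥ ∧ M ≠ ⊤ ∧ (nc c M Finset.univ B).card + 2 ≤ M.index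
  · obtain ⟨M, hM0, hM1, hMb, hmin⟩ := min_bad c B hbad
    have hc2 : 2 ≤ Nat.card M := two_le_card hM0
    have hne2 : Nat.card M ≠ 2 := by
      intro hh
      have := h2 M hh
      omega
    by_cases hc3 : Nat.card M = 3
    · obtain ⟨hs, hq⟩ := h3 M hc3 hM1 hMb
      exact hK3 V G c M B ⟨hctx, hB, hc3, hM1, hMb, hff, hs, hq⟩
    · exact hK4 V G c hctx M B hB hM1 (by omega) hMb hmin hff (h4 M (by omega) hM1)
  · apply hDIR V G c hctx B hB hff
    intro R hR0 hR1
    by_contra hcon
    push Not at hcon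
    exact hbad ⟨R, hR0, hR1, by omega⟩

theorem FF_le {V G : Type} [Fintype V] (c : V → V → G) (B : Finset V) :
    FF c B ≤ 2 * (Finset.univ \ B).card := by
  unfold FF
  calc ∑ z ∈ Finset.univ \ B, (min (Cs c B z).card 3 - 1)
      ≤ ∑ z ∈ Finset.univ \ B, 2 := Finset.sum_le_sum (fun z _ => by omega)
    _ = 2 * (Finset.univ \ B).card := by rw [Finset.sum_const, smul_eq_mul, mul_comm]

theorem main (hTREG : S_TREG) (hBASE : S_BASE) (hE2 : S_E2) (hDIR : S_DIR) (hK4 : S_K4)
    (hK3 : S_K3) : S_MAIN := by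
  intro V G _ _ _ _ c hc hcard
  by_contra hnot
  have hctx : Ctx c := ⟨hc, hcard, hnot⟩
  by_cases hm : Fintype.card G ≤ 1
  · -- trivial group
    have hsub : Subsingleton G := Fintype.card_le_one_iff_subsingleton.mp hm
    have hpos : 0 < Fintype.card V := by omega
    obtain ⟨g⟩ := Fintype.card_pos_iff.mp hpos
    apply hnot
    exact ⟨g, fun _ => g, fun v hv => ⟨fun h => hv h.symm, Or.inl rfl⟩, Subsingleton.elim _ _⟩
  push Not at hm
  by_cases hreg : ∃ (x : V) (g1 g2 : G), g1 ≠ g2 ∧ (Rs c x g1 g2).card ≤ 1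
  · obtain ⟨x, g1, g2, hg, hR⟩ := hreg
    exact hTREG V G c hctx x g1 g2 hg hR
  push Not at hreg
  obtain ⟨B, hB2, hB5, hff⟩ := hBASE V G c hctx (by omega)
    (fun x g g' hg => by have := hreg x g g' hg; omega)
  have hBV : (Finset.univ \ B).card + B.card = Fintype.card G + 1 := by
    rw [Finset.card_sdiff_add_card_eq_card (Finset.subset_univ B), Finset.card_univ, hcard]
  by_cases hbad2 : ∃ M : AddSubgroup G, Nat.card M = 2 ∧
      (nc c M Finset.univ B).card + 2 ≤ M.index
  · obtain ⟨M2, hM2, hM2b⟩ := hbad2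
    obtain ⟨H, hBH, hHff, hHg, hH2, E, hE, hHE, hEp⟩ :=
      hE2 V G c hctx M2 B hM2 hB2 hB5 hM2b hff
    have hBne : B.Nonempty := Finset.card_pos.mp (by omega)
    refine fin_aux hDIR hK4 hK3 c hctx H (hBne.mono hBH) hHff ?_ ?_ (fun M _ _ => hH2)
    · intro M hM
      rw [eq_of_card_two M M2 hM hM2]
      exact hHg
    · intro M hM hMt hMb
      have hEsub : E ⊆ nc c M Finset.univ H := by
        intro z hz
        have hz' := hE hz
        simp only [nc, Finset.mem_filter]
        refine ⟨hz', ?_⟩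
        intro hTc
        obtain ⟨x, hx, y, hy, hxy, hxyM⟩ := hEp z hz
        have := hTc x hx y hy
        exact hxy (sub_eq_zero.mp (inter_two_three M2 M hM2 hM hxyM this))
      have hEc := Finset.card_le_card hEsub
      refine ⟨Or.inr (by omega), ?_⟩
      intro hq
      omega
  · push Not at hbad2
    have hBne : B.Nonempty := Finset.card_pos.mp (by omega)
    refine fin_aux hDIR hK4 hK3 c hctx B hBne hff ?_ ?_ ?_
    · intro M hM
      have := hbad2 M hM
      omega
    · intro M hM hMt hMb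
      refine ⟨Or.inl hB5, ?_⟩
      intro hq
      have h1 : Nat.card M * M.index = Nat.card G := AddSubgroup.card_mul_index M
      rw [hM, hq, Nat.card_eq_fintype_card] at h1
      have h2 := FF_le c B
      omega
    · intro M hM hMt
      have h1 : Nat.card M * M.index = Nat.card G := AddSubgroup.card_mul_index M
      rw [Nat.card_eq_fintype_card (α := G)] at h1
      have h0 : M.index ≠ 0 := AddSubgroup.index_ne_zero_of_finite
      have h2 : M.index ≠ 1 := by
        intro hh
        exact hMt (AddSubgroup.index_eq_one.mp hh)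
      have h3 : 4 * 2 ≤ Nat.card M * M.index := Nat.mul_le_mul hM (by omega)
      omega

end Pool.Agent.W593.ZT
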