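import Pool.Agent.W593.ZT.Stm

/-! Project ZT: one step of the recursion. -/

open scoped Classical

set_option autoImplicit false

namespace Pool.Agent.W593.ZT

theorem step (hOS : S_OS) : S_STEP := by
  intro V G _ _ c hsym T W H b1 hT hHW hb hsz
  have hq : 2 ≤ T.index := by
    have h0 : T.index ≠ 0 := AddSubgroup.index_ne_zero_of_finite
    have h1 : T.index ≠ 1 := by
      intro hh
      exact hT (AddSubgroup.index_eq_one.mp hh)
    omega
  have hN : ∀ z ∈ nc c T W H, ∃ h ∈ H, c z h - c z b1 ∉ T := by
    intro z hz
    simp only [nc, Finset.mem_filter] at hz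
    by_contra hcon
    push Not at hcon
    apply hz.2
    intro x hx y hy
    simp only [Cs, Finset.mem_image] at hx hy
    obtain ⟨h, hh, rfl⟩ := hx
    obtain ⟨h', hh', rfl⟩ := hy
    have := T.sub_mem (hcon h hh) (hcon h' hh')
    simpa using this
  have hNsub : nc c T W H ⊆ W \ H := Finset.filter_subset _ _
  by_cases hcase : T.index ≤ (nc c T W H).card + 1
  · left
    obtain ⟨L0, hL0, hL0c⟩ := Finset.exists_subset_card_eq
      (show T.index - 1 ≤ (nc c T W H).card by omega)
    have hf : ∀ z ∈ L0, ∃ h ∈ H, c z h - c z b1 ∉ T := fun z hz => hN z (hL0 hz)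
    choose! h1 h1H h1T using hf
    refine ⟨H, L0, h1, subset_rfl, hHW, hL0.trans hNsub, by omega, ?_, fun z hz =>
      ⟨h1H z hz, h1T z hz⟩⟩
    rw [Finset.sdiff_self, Finset.card_empty]
    have := Nat.min_le_right (nc c T W H).card (T.index - 1)
    omega
  · push Not at hcase
    rcases hOS V G c hsym T W H hHW ⟨b1, hb⟩ (by omega) hsz with
      ⟨P, Λ, hP, hΛ, hPc, hΛc, hPΛ⟩ | hst
    · left
      have hf : ∀ z ∈ nc c T W H ∪ Λ, ∃ h ∈ H ∪ P, c z h - c z b1 ∉ T := by
        intro z hz
        rcases Finset.mem_union.mp hz with hz | hz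
        · obtain ⟨h, hh, hhT⟩ := hN z hz
          exact ⟨h, Finset.mem_union_left _ hh, hhT⟩
        · obtain ⟨h, hh, hhT⟩ := hPΛ z hz
          exact ⟨h, Finset.mem_union_right _ hh, hhT b1 hb⟩
      choose! h1 h1H h1T using hf
      refine ⟨H ∪ P, nc c T W H ∪ Λ, h1, Finset.subset_union_left, ?_, ?_, ?_, ?_, fun z hz =>
        ⟨h1H z hz, h1T z hz⟩⟩
      · apply Finset.union_subset hHW
        intro x hx
        have := hP hx
        simp only [Finset.mem_sdiff] at this
        exact this.1.1
      · intro x hx
        rcases Finset.mem_union.mp hx with hx | hx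
        · have h1 := hNsub hx
          simp only [Finset.mem_sdiff, Finset.mem_union, not_or] at h1 ⊢
          refine ⟨h1.1, h1.2, ?_⟩
          intro hxP
          have := hP hxP
          simp only [Finset.mem_sdiff] at this
          exact this.2 hx
        · have h1 := hΛ hx
          simp only [Finset.mem_sdiff, Finset.mem_union, not_or] at h1 ⊢
          exact ⟨h1.1.1.1, h1.1.1.2, h1.2⟩
      · have hdisj : Disjoint (nc c T W H) Λ := by
          rw [Finset.disjoint_left]
          intro x hx hx'
          have h1 := hΛ hx'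
          simp only [Finset.mem_sdiff] at h1
          exact h1.1.2 hx
        rw [Finset.card_union_of_disjoint hdisj]
        omega
      · have h2 : ((H ∪ P) \ H).card ≤ P.card := by
          apply Finset.card_le_card
          intro x hx
          simp only [Finset.mem_sdiff, Finset.mem_union] at hx
          rcases hx with ⟨hx | hx, hx'⟩
          · exact absurd hx hx'
          · exact hx
        have := Nat.min_le_left (nc c T W H).card (T.index - 1)
        omega
    · right
      exact ⟨by omega, hst⟩

end Pool.Agent.W593.ZT
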