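import Pool.Agent.W593.ZT.PL
import Pool.Agent.W593.ZT.STEP
import Pool.Agent.W73.ZT.PLR2
import Pool.Agent.W593.ZT.K3
import Pool.Agent.W593.ZT.MAIN
import Pool.Agent.W593.ZT.FINAL
import Pool.Agent.W509.ZT.K2
import Pool.Agent.W862.ZT.DAV
import Pool.Agent.W862.ZT.SUB
import Pool.Agent.W800.ZT.TREE
import Pool.Agent.W179.ZT.TREE2
import Pool.Agent.W140.ZT.MONO
import Pool.Agent.W971.ZT.NSL
import Pool.Agent.W906.ZT.HL
import Pool.Agent.W15.ZT.OS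
import Pool.Agent.W585.ZT.PLB
import Pool.Agent.W688.ZT.Plf
import Pool.Agent.W748.ZT.PLR1
import Pool.Agent.W212.ZT.KU
import Pool.Agent.W162.ZT.K4
import Pool.Agent.W918.ZT.K3W
import Pool.Agent.W696.ZT.K3I
import Pool.Agent.W912.ZT.K3L0
import Pool.Agent.W486.ZT.K3D1
import Pool.Agent.W358.ZT.K3L1
import Pool.Agent.W28.ZT.K3L2A
import Pool.Agent.W724.ZT.K3L2B
import Pool.Agent.W561.ZT.E2
import Pool.Agent.W962.ZT.FFN
import Pool.Agent.W557.ZT.GAIN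
import Pool.Agent.W446.ZT.BT
import Pool.Agent.W378.ZT.B8
import Pool.Agent.W381.ZT.B6
import Pool.Agent.W303.ZT.Base
import Pool.Agent.W249.ZT.TS
import Pool.Agent.W499.ZT.TK2
import Pool.Agent.W271.ZT.TDIR
import Pool.Agent.W196.ZT.TK
import Pool.Agent.W701.ZT.T6
import Pool.Agent.W318.ZT.BR0
import Pool.Agent.W397.ZT.BR2

/-! Project ZT: assembly of all parts. -/

open scoped Classical

set_option autoImplicit false

namespace Pool.Agent.W593.ZT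

theorem all_main : S_MAIN := by
  have hK2 : S_K2 := Pool.Agent.W509.ZT.k2
  have hCOMP : S_COMP := Pool.Agent.W509.ZT.comp
  have hC3 : S_C3 := Pool.Agent.W509.ZT.c3
  have hDAV : S_DAV := Pool.Agent.W862.ZT.dav
  have hSUB : S_SUB := Pool.Agent.W862.ZT.sub
  have hTREE : S_TREE := Pool.Agent.W800.ZT.tree
  have hTREE2 : S_TREE2 := Pool.Agent.W179.ZT.tree2 hTREE
  have hMONO : S_MONO := Pool.Agent.W140.ZT.mono
  have hNSL : S_NSL := Pool.Agent.W971.ZT.nsl hK2 hTREE2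
  have hHL : S_HL := Pool.Agent.W906.ZT.hl
  have hPLB : S_PLB := Pool.Agent.W585.ZT.plb
  have hPLF : S_PLF := Pool.Agent.W688.ZT.plf hK2
  have hPLR1 : S_PLR1 := Pool.Agent.W748.ZT.plr1 hK2 hCOMP
  have hOS : S_OS := Pool.Agent.W15.ZT.os hHL
  have hSTEP : S_STEP := step hOS
  have hPLR2 : S_PLR2 := Pool.Agent.W73.ZT.plr2 hK2 hCOMP
  have hPL : S_PL := pl hSTEP hSUB hPLB hPLF hPLR1 hPLR2
  have hDIR : S_DIR := Pool.Agent.W688.ZT.dir hK2 hTREE2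
  have hKU : S_KU := Pool.Agent.W212.ZT.ku hPL hK2 hCOMP hTREE2 hNSL
  have hK4 : S_K4 := Pool.Agent.W162.ZT.k4 hKU
  have hK3W : S_K3W := Pool.Agent.W918.ZT.k3w
  have hK3I : S_K3I := Pool.Agent.W696.ZT.k3i hK3W hC3 hCOMP hTREE2
  have hK3L0 : S_K3L0 := Pool.Agent.W912.ZT.k3l0 hK3W hC3 hNSL
  have hK3D1 : S_K3D1 := Pool.Agent.W486.ZT.k3d1 hK3W hC3 hCOMP hNSL
  have hK3L1 : S_K3L1 := Pool.Agent.W358.ZT.K3L1 hK3W hK3D1
  have hK3L2A : S_K3L2A := Pool.Agent.W28.ZT.k3l2a hK3W hK3D1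
  have hK3L2B : S_K3L2B := Pool.Agent.W724.ZT.k3l2b hK3W hC3 hCOMP hNSL hDAV
  have hK3 : S_K3 := k3 hPL hK3W hK3I hK3L0 hK3L1 hK3L2A hK3L2B
  have hE2 : S_E2 := Pool.Agent.W561.ZT.e2 hHL hNSL
  have hFFN : S_FFN := Pool.Agent.W962.ZT.FFN
  have hGAIN : S_GAIN := Pool.Agent.W557.ZT.gain hMONO
  have hBT : S_BT := Pool.Agent.W446.ZT.bt hGAIN hFFN hMONO
  have hB8 : S_B8 := Pool.Agent.W378.ZT.main hGAIN hFFN
  have hB6 : S_B6 := Pool.Agent.W381.ZT.b6 hMONO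
  have hBASE : S_BASE := Pool.Agent.W303.ZT.base hBT hB8 hB6 hMONO
  have hTS : S_TS := Pool.Agent.W249.ZT.ts hMONO
  have hTK2 : S_TK2 := Pool.Agent.W499.ZT.tk2 hNSL
  have hTDIR : S_TDIR := Pool.Agent.W271.ZT.tdir hK2 hTREE
  have hTK : S_TK := Pool.Agent.W196.ZT.tk hKU
  have hT6 : S_T6 := Pool.Agent.W701.ZT.t6 hC3 hCOMP hTREE2 hNSL
  have hTREG : S_TREG := treg hTS hTK2 hTDIR hTK hT6
  exact main hTREG hBASE hE2 hDIR hK4 hK3

end Pool.Agent.W593.ZT
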