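import Pool.Agent.W593.ZT.Stm

/-! Project ZT: the recursion lemma from its steps. -/

open scoped Classical

set_option autoImplicit false

namespace Pool.Agent.W593.ZT

theorem index_lt_of_lt {G : Type} [AddCommGroup G] [Fintype G] {S S1 : AddSubgroup G}
    (h : S < S1) : 2 * S1.index ≤ S.index := by
  have h1 : S.relIndex S1 * S1.index = S.index := AddSubgroup.relIndex_mul_index h.le
  have h2 : S.relIndex S1 ≠ 1 := by
    intro hh
    rw [AddSubgroup.relIndex_eq_one] at hh
    exact absurd hh (not_le_of_gt h)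
  have h3 : S.relIndex S1 ≠ 0 := by
    intro hh
    rw [hh] at h1
    have : S.index ≠ 0 := AddSubgroup.index_ne_zero_of_finite
    omega
  have h4 : 2 ≤ S.relIndex S1 := by omega
  calc 2 * S1.index ≤ S.relIndex S1 * S1.index := Nat.mul_le_mul_right _ h4
    _ = S.index := h1

theorem pl (hSTEP : S_STEP) (hSUB : S_SUB) (hPLB : S_PLB) (hPLF : S_PLF) (hPLR1 : S_PLR1)
    (hPLR2 : S_PLR2) : S_PL := by
  intro V G _ _ c hc
  have key : ∀ n : ℕ, ∀ (S : AddSubgroup G) (W H : Finset V) (b1 : V), S.index ≤ n → S ≠ ⊤ →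
      H ⊆ W → b1 ∈ H → 2 * S.index ≤ (W \ H).card + (nc c S W H).card + 2 →
      PLi c S W H ∨ ∃ S' a Hp z0 s, PLii c S W H b1 S' a Hp z0 s := by
    intro n
    induction n with
    | zero =>
      intro S W H b1 hn
      have : S.index ≠ 0 := AddSubgroup.index_ne_zero_of_finite
      omega
    | succ n ih =>
      intro S W H b1 hn hne hHW hb hsz
      rcases hSTEP V G c hc S W H b1 hne hHW hb hsz with
        ⟨H1, L0, h1, hHH1, hH1W, hL0, hL0c, hcount, hh1⟩ | ⟨hsmall, hstuck⟩
      · rcases hSUB V G S L0 (fun z => c z (h1 z) - c z b1) hne hL0c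
          (fun z hz => (hh1 z hz).2) with hfull | ⟨S1, hSS1, hS1ne, hbad, hR⟩
        · left
          exact hPLF V G c S W H H1 L0 b1 h1 hne hb hHH1 hH1W hL0 hL0c hcount
            (fun z hz => (hh1 z hz).1) hfull
        · have hidx : 2 * S1.index ≤ S.index := index_lt_of_lt hSS1
          have hpos : S1.index ≠ 0 := AddSubgroup.index_ne_zero_of_finite
          have hcard : L0.card ≤ (W \ H1).card := Finset.card_le_card hL0
          rcases ih S1 W H1 b1 (by omega) hS1ne hH1W (hHH1 hb) (by omega) with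
            hi | ⟨S', a, Hp, z0, s, hii⟩
          · left
            exact hPLR1 V G c S S1 W H H1 L0 b1 h1 hSS1 hS1ne hb hHH1 hH1W hL0 hL0c hcount
              (fun z hz => (hh1 z hz).1) hbad hR hi
          · right
            obtain ⟨s', hs'⟩ := hPLR2 V G c S S1 W H H1 L0 b1 h1 hSS1 hS1ne hb hHH1 hH1W hL0
              hL0c hcount (fun z hz => (hh1 z hz).1) hbad hR S' a Hp z0 s hii
            exact ⟨S', a, Hp, z0, s', hs'⟩
      · right
        obtain ⟨a, z0, h⟩ := hPLB V G c hc S W H b1 hne hHW hb hsmall hstuck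
        exact ⟨S, a, H, z0, 0, h⟩
  intro S W H b1 hne hHW hb hsz
  exact key S.index S W H b1 le_rfl hne hHW hb hsz

end Pool.Agent.W593.ZT
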