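import Mathlib

/-! Project ZT (MP_12e153_co, S07277): zero-sum trees of diameter at most four.
Definitions and exact statements of all parts. -/

open scoped Classical

set_option autoImplicit false

namespace Pool.Agent.W593.ZT

/-- the colours of the edges from `z` to the hub set `H` -/
noncomputable def Cs {V G : Type} (c : V → V → G) (H : Finset V) (z : V) : Finset G :=
  H.image (c z)

/-- `A` lies in one coset of `T` -/
def Tc {G : Type} [AddCommGroup G] (T : AddSubgroup G) (A : Finset G) : Prop :=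
  ∀ x ∈ A, ∀ y ∈ A, x - y ∈ T

/-- number of cosets of `T` met by `A` -/
noncomputable def ncl {G : Type} [AddCommGroup G] (T : AddSubgroup G) (A : Finset G) : ℕ :=
  (A.image (fun x => (QuotientAddGroup.mk x : G ⧸ T))).card

/-- the vertices of `W` outside `H` that see at least two cosets of `T` from `H` -/
noncomputable def nc {V G : Type} [AddCommGroup G] (c : V → V → G) (T : AddSubgroup G)
    (W H : Finset V) : Finset V :=
  (W \ H).filter (fun z => ¬ Tc T (Cs c H z))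

/-- the vertices of `W` outside `H` all of whose edges to `H` lie in `a + T` -/
noncomputable def va {V G : Type} [AddCommGroup G] (c : V → V → G) (T : AddSubgroup G) (a : G)
    (W H : Finset V) : Finset V :=
  (W \ H).filter (fun z => ∀ h ∈ H, c z h - a ∈ T)

/-- the other vertices of `W` outside `H` -/
noncomputable def wr {V G : Type} [AddCommGroup G] (c : V → V → G) (T : AddSubgroup G) (a : G)
    (W H : Finset V) : Finset V :=
  (W \ H).filter (fun z => ¬ ∀ h ∈ H, c z h - a ∈ T)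

/-- sums with one element of `A z` for each `z` in `Z` -/
def CS {V G : Type} [AddCommGroup G] (Z : Finset V) (A : V → Finset G) : Set G :=
  {s | ∃ r : V → G, (∀ z ∈ Z, r z ∈ A z) ∧ s = ∑ z ∈ Z, r z}

/-- the sums of the family cover a full coset of `S1` modulo `S0` -/
def Cov {V G : Type} [AddCommGroup G] (S0 S1 : AddSubgroup G) (Z : Finset V)
    (A : V → Finset G) : Prop :=
  ∀ r0 : V → G, (∀ z ∈ Z, r0 z ∈ A z) → ∀ s, s - ∑ z ∈ Z, r0 z ∈ S1 → ∃ r ∈ CS Z A, s - r ∈ S0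

/-- zero-sum spanning tree of depth at most two below the root `g`; `p` is the parent map -/
def DTree {V G : Type} [Fintype V] [AddCommGroup G] (c : V → V → G) : Prop :=
  ∃ (g : V) (p : V → V), (∀ v, v ≠ g → p v ≠ v ∧ (p v = g ∨ p (p v) = g)) ∧
    ∑ v ∈ Finset.univ.erase g, c v (p v) = 0

/-- units modulo `0`, at most two per vertex -/
noncomputable def FF {V G : Type} [Fintype V] (c : V → V → G) (B : Finset V) : ℕ :=
  ∑ z ∈ Finset.univ \ B, (min (Cs c B z).card 3 - 1)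

/-- vertices outside `B` seeing one colour, at least three colours -/
noncomputable def n1 {V G : Type} [Fintype V] (c : V → V → G) (B : Finset V) : ℕ :=
  ((Finset.univ \ B).filter (fun z => (Cs c B z).card = 1)).card
noncomputable def n3 {V G : Type} [Fintype V] (c : V → V → G) (B : Finset V) : ℕ :=
  ((Finset.univ \ B).filter (fun z => 3 ≤ (Cs c B z).card)).card

/-- the neighbours of `x` outside the colours `g, g'` -/
noncomputable def Rs {V G : Type} [Fintype V] (c : V → V → G) (x : V) (g g' : G) : Finset V :=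
  Finset.univ.filter (fun z => z ≠ x ∧ c x z ≠ g ∧ c x z ≠ g')

/-- the standing assumptions -/
structure Ctx {V G : Type} [Fintype V] [AddCommGroup G] [Fintype G] (c : V → V → G) : Prop where
  sym : ∀ x y, c x y = c y x
  card : Fintype.card V = Fintype.card G + 1
  not : ¬ DTree c

/-! ### Covering lemmas -/

/-- K2: Kneser's theorem between `S0 ≤ S1`, with a small subfamily -/
def S_K2 : Prop := ∀ (V G : Type) [AddCommGroup G] [Fintype G] (S0 S1 : AddSubgroup G),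
  S0 ≤ S1 → ∀ (Z : Finset V) (A : V → Finset G), (∀ z ∈ Z, (A z).Nonempty ∧ Tc S1 (A z)) →
  (∀ R : AddSubgroup G, S0 ≤ R → R < S1 → R.relIndex S1 ≤ 1 + ∑ z ∈ Z, (ncl R (A z) - 1)) →
  ∃ Z' ⊆ Z, Z'.card + 1 ≤ S0.relIndex S1 ∧ Cov S0 S1 Z' A

/-- COMP: composition of covers -/
def S_COMP : Prop := ∀ (V G : Type) [AddCommGroup G] (S0 S1 S2 : AddSubgroup G)
  (Z1 Z2 : Finset V) (A1 A2 : V → Finset G), S1 ≤ S2 → Disjoint Z1 Z2 →
  (∀ z ∈ Z1, (A1 z).Nonempty ∧ Tc S1 (A1 z)) → (∀ z ∈ Z2, (A2 z).Nonempty) →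
  Cov S0 S1 Z1 A1 → Cov S1 S2 Z2 A2 →
  Cov S0 S2 (Z1 ∪ Z2) (fun z => if z ∈ Z1 then A1 z else A2 z)

/-- MC: a cover stays a cover when leaves are added -/
def S_MC : Prop := ∀ (V G : Type) [AddCommGroup G] (S0 S1 : AddSubgroup G)
  (Z Z' : Finset V) (A : V → Finset G), Z' ⊆ Z →
  (∀ z ∈ Z, (A z).Nonempty ∧ Tc S1 (A z)) → Cov S0 S1 Z' A → Cov S0 S1 Z A

/-- C3: covering a subgroup of order three -/
def S_C3 : Prop := ∀ (V G : Type) [AddCommGroup G] [Fintype G] (M : AddSubgroup G),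
  Nat.card M = 3 → ∀ (Z : Finset V) (A : V → Finset G), (∀ z ∈ Z, (A z).Nonempty ∧ Tc M (A z)) →
  2 ≤ ∑ z ∈ Z, ((A z).card - 1) → Cov ⊥ M Z A

/-- DAV: Davenport constant of a quotient -/
def S_DAV : Prop := ∀ (V G : Type) [AddCommGroup G] [Fintype G] (S : AddSubgroup G)
  (Q : Finset V) (d : V → G), S.index ≤ Q.card →
  ∃ I ⊆ Q, I.Nonempty ∧ I.card ≤ S.index ∧ ∑ h ∈ I, d h ∈ S

/-! ### Trees -/

/-- TREE: from a choice of attachments with zero sum -/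
def S_TREE : Prop := ∀ (V G : Type) [Fintype V] [AddCommGroup G] (c : V → V → G),
  (∀ x y, c x y = c y x) → ∀ (H : Finset V) (g : V) (r : V → G), g ∈ H →
  (∀ z ∉ H, r z ∈ Cs c H z) →
  ∑ z ∈ Finset.univ \ H, r z + ∑ h ∈ H.erase g, c h g = 0 → DTree c

/-- TREE2: a full cover gives a zero-sum tree -/
def S_TREE2 : Prop := ∀ (V G : Type) [Fintype V] [AddCommGroup G] (c : V → V → G),
  (∀ x y, c x y = c y x) → ∀ (H Z : Finset V) (A : V → Finset G), H.Nonempty →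
  Z ⊆ Finset.univ \ H → (∀ z ∈ Z, (A z).Nonempty ∧ A z ⊆ Cs c H z) → Cov ⊥ ⊤ Z A → DTree c

/-- MONO: no monochromatic tree of depth two -/
def S_MONO : Prop := ∀ (V G : Type) [Fintype V] [AddCommGroup G] [Fintype G] (c : V → V → G),
  Ctx c → ∀ (x : V) (a : G), ∃ p, p ≠ x ∧ c x p ≠ a ∧ ∀ y, y ≠ x → c x y = a → c y p ≠ a

/-- NSL -/
def S_NSL : Prop := ∀ (V G : Type) [Fintype V] [AddCommGroup G] [Fintype G] (c : V → V → G),
  Ctx c → ∀ (T : AddSubgroup G) (a : G) (H Z : Finset V) (A : V → Finset G) (r0 : V → G),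
  T ≠ ⊤ → H.Nonempty → Disjoint H Z → (∀ z ∈ Z, A z ⊆ Cs c H z) → Cov ⊥ T Z A →
  (∀ z ∈ Z, r0 z ∈ A z) → ∑ z ∈ Z, r0 z - Z.card • a ∈ T →
  ((Finset.univ \ (H ∪ Z)).filter (fun y => ∃ h ∈ H, c y h - a ∈ T)).card + 2 ≤ T.index

/-! ### The half lemma and the recursion -/

/-- HL -/
def S_HL : Prop := ∀ (V K : Type) (U : Finset V) (α : V → K) (χ : V → V → K),
  (∀ x y, χ x y = χ y x) → (∀ z ∈ U, ∃ h ∈ U, h ≠ z ∧ χ z h ≠ α z) →
  ∃ P Λ : Finset V, P ⊆ U ∧ Λ ⊆ U \ P ∧ (∀ z ∈ Λ, ∃ h ∈ P, χ z h ≠ α z) ∧ U.card / 2 ≤ Λ.card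

/-- the stuck situation -/
def Stuck {V G : Type} [AddCommGroup G] (c : V → V → G) (T : AddSubgroup G)
    (W H : Finset V) : Prop :=
  ∃ (z0 : V) (a : G), z0 ∈ W \ H ∧ z0 ∉ nc c T W H ∧
    (∀ y ∈ W, y ≠ z0 → y ∉ nc c T W H → c z0 y - a ∈ T) ∧ (wr c T a W H).card + 2 ≤ T.index

/-- OS -/
def S_OS : Prop := ∀ (V G : Type) [AddCommGroup G] [Fintype G] (c : V → V → G),
  (∀ x y, c x y = c y x) → ∀ (T : AddSubgroup G) (W H : Finset V), H ⊆ W → H.Nonempty →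
  (nc c T W H).card + 2 ≤ T.index → 2 * T.index ≤ (W \ H).card + (nc c T W H).card + 2 →
  (∃ P Λ : Finset V, P ⊆ (W \ H) \ nc c T W H ∧ Λ ⊆ ((W \ H) \ nc c T W H) \ P ∧
    P.card + (nc c T W H).card + 1 ≤ T.index ∧ Λ.card + (nc c T W H).card + 1 = T.index ∧
    ∀ z ∈ Λ, ∃ h ∈ P, ∀ h' ∈ H, c z h - c z h' ∉ T) ∨ Stuck c T W H

/-- STEP -/
def S_STEP : Prop := ∀ (V G : Type) [AddCommGroup G] [Fintype G] (c : V → V → G),
  (∀ x y, c x y = c y x) → ∀ (T : AddSubgroup G) (W H : Finset V) (b1 : V), T ≠ ⊤ → H ⊆ W →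
  b1 ∈ H → 2 * T.index ≤ (W \ H).card + (nc c T W H).card + 2 →
  (∃ (H1 L0 : Finset V) (h1 : V → V), H ⊆ H1 ∧ H1 ⊆ W ∧ L0 ⊆ W \ H1 ∧ L0.card + 1 = T.index ∧
    (H1 \ H).card + min (nc c T W H).card (T.index - 1) + 1 ≤ T.index ∧
    ∀ z ∈ L0, h1 z ∈ H1 ∧ c z (h1 z) - c z b1 ∉ T) ∨
  ((nc c T W H).card + 2 ≤ T.index ∧ Stuck c T W H)

/-- SUB: full cover or a minimal bad subgroup -/
def S_SUB : Prop := ∀ (V G : Type) [AddCommGroup G] [Fintype G] (T : AddSubgroup G)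
  (L0 : Finset V) (d : V → G), T ≠ ⊤ → L0.card + 1 = T.index → (∀ z ∈ L0, d z ∉ T) →
  (∀ R : AddSubgroup G, T ≤ R → R ≠ ⊤ → R.index ≤ 1 + (L0.filter (fun z => d z ∉ R)).card) ∨
  (∃ S1 : AddSubgroup G, T < S1 ∧ S1 ≠ ⊤ ∧ (L0.filter (fun z => d z ∉ S1)).card + 2 ≤ S1.index ∧
    ∀ R : AddSubgroup G, T ≤ R → R < S1 → R.index ≤ 1 + (L0.filter (fun z => d z ∉ R)).card)

/-- outcome (i) -/
def PLi {V G : Type} [AddCommGroup G] (c : V → V → G) (S : AddSubgroup G) (W H : Finset V) : Prop :=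
  ∃ (Hp L : Finset V) (A : V → Finset G), H ⊆ Hp ∧ Hp ⊆ W ∧ L ⊆ W \ Hp ∧
    (∀ z ∈ L, (A z).Nonempty ∧ A z ⊆ Cs c Hp z) ∧ Cov S ⊤ L A ∧
    (Hp \ H).card + L.card + min (nc c S W H).card (S.index - 1) + 2 ≤ 2 * S.index

/-- outcome (ii) -/
structure PLii {V G : Type} [AddCommGroup G] (c : V → V → G) (S : AddSubgroup G)
    (W H : Finset V) (b1 : V) (S' : AddSubgroup G) (a : G) (Hp : Finset V) (z0 : V) (s : ℕ) :
    Prop where
  le : S ≤ S'
  ne : S' ≠ ⊤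
  sub : H ⊆ Hp
  subW : Hp ⊆ W
  z0W : z0 ∈ W \ Hp
  z0nc : z0 ∉ nc c S' W Hp
  root : ∀ y ∈ W, y ≠ z0 → y ∉ nc c S' W Hp → c z0 y - a ∈ S'
  wrb : (wr c S' a W Hp).card + 2 ≤ S'.index
  bx : (Hp \ H).card + s + (wr c S' a W Hp).card + min (nc c S W H).card (S.index - 1) + 4
    ≤ 2 * S.index
  lv : ∀ X : Finset V, X.card ≤ 2 → ∃ (L : Finset V) (hz : V → V),
    L ⊆ va c S' a W Hp \ X ∧ L.card ≤ s ∧ (∀ z ∈ L, hz z ∈ Hp) ∧
    Cov S S' L (fun z => {c z b1, c z (hz z)})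
  lev : (S' = S ∧ Hp = H ∧ s = 0) ∨
    ((Hp \ H).card + min (nc c S W H).card (S.index - 1) + 1 ≤ S.index ∧
      (s + 1) * S'.index ≤ S.index ∧ 2 * S'.index ≤ S.index ∧ 1 ≤ s) ∨
    ((Hp \ H).card + min (nc c S W H).card (S.index - 1) + 2 * S'.index + 2 ≤ 2 * S.index ∧
      4 * S'.index + 2 * s ≤ S.index + 4 ∧ (s + 1) * S'.index ≤ S.index ∧
      4 * S'.index ≤ S.index ∧ 1 ≤ s)

/-- PLB: stuck at once -/
def S_PLB : Prop := ∀ (V G : Type) [AddCommGroup G] [Fintype G] (c : V → V → G),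
  (∀ x y, c x y = c y x) → ∀ (S : AddSubgroup G) (W H : Finset V) (b1 : V), S ≠ ⊤ → H ⊆ W →
  b1 ∈ H → (nc c S W H).card + 2 ≤ S.index → Stuck c S W H →
  ∃ a z0, PLii c S W H b1 S a H z0 0

/-- PLF: full cover in one step -/
def S_PLF : Prop := ∀ (V G : Type) [AddCommGroup G] [Fintype G] (c : V → V → G)
  (S : AddSubgroup G) (W H H1 L0 : Finset V) (b1 : V) (h1 : V → V), S ≠ ⊤ → b1 ∈ H →
  H ⊆ H1 → H1 ⊆ W → L0 ⊆ W \ H1 → L0.card + 1 = S.index →
  (H1 \ H).card + min (nc c S W H).card (S.index - 1) + 1 ≤ S.index →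
  (∀ z ∈ L0, h1 z ∈ H1) →
  (∀ R : AddSubgroup G, S ≤ R → R ≠ ⊤ →
    R.index ≤ 1 + (L0.filter (fun z => c z (h1 z) - c z b1 ∉ R)).card) →
  PLi c S W H

/-- PLR1: recursion, outcome (i) -/
def S_PLR1 : Prop := ∀ (V G : Type) [AddCommGroup G] [Fintype G] (c : V → V → G)
  (S S1 : AddSubgroup G) (W H H1 L0 : Finset V) (b1 : V) (h1 : V → V), S < S1 → S1 ≠ ⊤ →
  b1 ∈ H → H ⊆ H1 → H1 ⊆ W → L0 ⊆ W \ H1 → L0.card + 1 = S.index →
  (H1 \ H).card + min (nc c S W H).card (S.index - 1) + 1 ≤ S.index →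
  (∀ z ∈ L0, h1 z ∈ H1) →
  (L0.filter (fun z => c z (h1 z) - c z b1 ∉ S1)).card + 2 ≤ S1.index →
  (∀ R : AddSubgroup G, S ≤ R → R < S1 →
    R.index ≤ 1 + (L0.filter (fun z => c z (h1 z) - c z b1 ∉ R)).card) →
  PLi c S1 W H1 → PLi c S W H

/-- PLR2: recursion, outcome (ii) -/
def S_PLR2 : Prop := ∀ (V G : Type) [AddCommGroup G] [Fintype G] (c : V → V → G)
  (S S1 : AddSubgroup G) (W H H1 L0 : Finset V) (b1 : V) (h1 : V → V), S < S1 → S1 ≠ ⊤ →
  b1 ∈ H → H ⊆ H1 → H1 ⊆ W → L0 ⊆ W \ H1 → L0.card + 1 = S.index →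
  (H1 \ H).card + min (nc c S W H).card (S.index - 1) + 1 ≤ S.index →
  (∀ z ∈ L0, h1 z ∈ H1) →
  (L0.filter (fun z => c z (h1 z) - c z b1 ∉ S1)).card + 2 ≤ S1.index →
  (∀ R : AddSubgroup G, S ≤ R → R < S1 →
    R.index ≤ 1 + (L0.filter (fun z => c z (h1 z) - c z b1 ∉ R)).card) →
  ∀ S' a Hp z0 s, PLii c S1 W H1 b1 S' a Hp z0 s → ∃ s', PLii c S W H b1 S' a Hp z0 s'

/-- PL: the recursion lemma -/
def S_PL : Prop := ∀ (V G : Type) [AddCommGroup G] [Fintype G] (c : V → V → G),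
  (∀ x y, c x y = c y x) → ∀ (S : AddSubgroup G) (W H : Finset V) (b1 : V), S ≠ ⊤ → H ⊆ W →
  b1 ∈ H → 2 * S.index ≤ (W \ H).card + (nc c S W H).card + 2 →
  PLi c S W H ∨ ∃ S' a Hp z0 s, PLii c S W H b1 S' a Hp z0 s

/-! ### Bad subgroups -/

/-- DIR: no bad subgroup -/
def S_DIR : Prop := ∀ (V G : Type) [Fintype V] [AddCommGroup G] [Fintype G] (c : V → V → G),
  Ctx c → ∀ B : Finset V, B.Nonempty → Fintype.card G ≤ FF c B + 1 →
  (∀ T : AddSubgroup G, T ≠ ⊥ → T ≠ ⊤ → T.index ≤ (nc c T Finset.univ B).card + 1) → False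

/-- KU: a minimal bad subgroup with enough units -/
def S_KU : Prop := ∀ (V G : Type) [Fintype V] [AddCommGroup G] [Fintype G] (c : V → V → G),
  Ctx c → ∀ (M : AddSubgroup G) (B : Finset V), B.Nonempty → M ≠ ⊤ → 2 ≤ Nat.card M →
  (nc c M Finset.univ B).card + 2 ≤ M.index →
  (∀ R : AddSubgroup G, R ≠ ⊥ → R < M → R.index ≤ (nc c R Finset.univ B).card + 1) →
  (∀ K : Finset V, K.card + (nc c M Finset.univ B).card + 2 ≤ 2 * M.index →
    Nat.card M ≤ 1 + ∑ z ∈ ((Finset.univ \ B) \ nc c M Finset.univ B) \ K,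
      ((Cs c B z).card - 1)) →
  2 * M.index + Nat.card M ≤ (Finset.univ \ B).card + 4 →
  (∀ v s : ℕ, 2 ≤ v → 2 * v ≤ M.index → (s + 1) * v ≤ M.index →
    2 * v + 2 * s + Nat.card M ≤ (Finset.univ \ B).card + 3) → False

/-- K4: order at least four -/
def S_K4 : Prop := ∀ (V G : Type) [Fintype V] [AddCommGroup G] [Fintype G] (c : V → V → G),
  Ctx c → ∀ (M : AddSubgroup G) (B : Finset V), B.Nonempty → M ≠ ⊤ → 4 ≤ Nat.card M →
  (nc c M Finset.univ B).card + 2 ≤ M.index →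
  (∀ R : AddSubgroup G, R ≠ ⊥ → R < M → R.index ≤ (nc c R Finset.univ B).card + 1) →
  Fintype.card G ≤ FF c B + 1 → Fintype.card G ≤ 2 * (Finset.univ \ B).card → False

/-- hypotheses for order three -/
structure K3H {V G : Type} [Fintype V] [AddCommGroup G] [Fintype G] (c : V → V → G)
    (M : AddSubgroup G) (B : Finset V) : Prop where
  ctx : Ctx c
  ne : B.Nonempty
  k3 : Nat.card M = 3
  mt : M ≠ ⊤
  nu : (nc c M Finset.univ B).card + 2 ≤ M.index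
  ff : Fintype.card G ≤ FF c B + 1
  sz : B.card ≤ 5 ∨ B.card ≤ 4 + (nc c M Finset.univ B).card
  q2 : M.index = 2 → B.card ≤ 4

/-- the `M`-constant vertices outside `B` -/
noncomputable def Us {V G : Type} [Fintype V] [AddCommGroup G] (c : V → V → G)
    (M : AddSubgroup G) (B : Finset V) : Finset V :=
  (Finset.univ \ B) \ nc c M Finset.univ B

/-- the working set: one vertex with three colours is reserved if there is one -/
def Wok {V G : Type} [Fintype V] [AddCommGroup G] (c : V → V → G) (M : AddSubgroup G)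
    (B W : Finset V) : Prop :=
  (W = Finset.univ ∧ ∀ z ∈ Us c M B, (Cs c B z).card ≤ 2) ∨
  (∃ y ∈ Us c M B, (Cs c B y).card = 3 ∧ W = Finset.univ.erase y)

def S_K3W : Prop := ∀ (V G : Type) [Fintype V] [AddCommGroup G] [Fintype G] (c : V → V → G)
  (M : AddSubgroup G) (B : Finset V), K3H c M B →
  (∀ z ∈ Us c M B, (Cs c B z).Nonempty ∧ Tc M (Cs c B z) ∧ (Cs c B z).card ≤ 3) ∧
  Fintype.card G = 3 * M.index ∧ (Finset.univ \ B).card + B.card = 3 * M.index + 1 ∧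
  3 * M.index ≤ ∑ z ∈ Us c M B, ((Cs c B z).card - 1) + 2 * (nc c M Finset.univ B).card + 1

def S_K3I : Prop := ∀ (V G : Type) [Fintype V] [AddCommGroup G] [Fintype G] (c : V → V → G)
  (M : AddSubgroup G) (B W : Finset V), K3H c M B → Wok c M B W → PLi c M W B → False

def S_K3L0 : Prop := ∀ (V G : Type) [Fintype V] [AddCommGroup G] [Fintype G] (c : V → V → G)
  (M : AddSubgroup G) (B W : Finset V) (b1 : V) (a : G) (z0 : V), K3H c M B → Wok c M B W →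
  b1 ∈ B → PLii c M W B b1 M a B z0 0 → False

/-- K3D1: two units in the main class and enough vertices -/
def S_K3D1 : Prop := ∀ (V G : Type) [Fintype V] [AddCommGroup G] [Fintype G] (c : V → V → G)
  (M : AddSubgroup G) (B W : Finset V) (b1 : V) (S' : AddSubgroup G) (a : G) (Hp : Finset V)
  (z0 : V) (s : ℕ), K3H c M B → b1 ∈ B → PLii c M W B b1 S' a Hp z0 s →
  2 ≤ ∑ z ∈ Us c M B ∩ va c S' a W Hp, ((Cs c B z).card - 1) →
  2 * S'.index + s ≤ (W \ Hp).card + 1 → False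

def S_K3L1 : Prop := ∀ (V G : Type) [Fintype V] [AddCommGroup G] [Fintype G] (c : V → V → G)
  (M : AddSubgroup G) (B W : Finset V) (b1 : V) (S' : AddSubgroup G) (a : G) (Hp : Finset V)
  (z0 : V) (s : ℕ), K3H c M B → Wok c M B W → b1 ∈ B → PLii c M W B b1 S' a Hp z0 s →
  (Hp \ B).card + min (nc c M W B).card (M.index - 1) + 1 ≤ M.index →
  (s + 1) * S'.index ≤ M.index → 2 * S'.index ≤ M.index → 1 ≤ s → False

def S_K3L2A : Prop := ∀ (V G : Type) [Fintype V] [AddCommGroup G] [Fintype G] (c : V → V → G)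
  (M : AddSubgroup G) (B W : Finset V) (b1 : V) (S' : AddSubgroup G) (a : G) (Hp : Finset V)
  (z0 : V) (s : ℕ), K3H c M B → Wok c M B W → b1 ∈ B → PLii c M W B b1 S' a Hp z0 s →
  (Hp \ B).card + min (nc c M W B).card (M.index - 1) + 2 * S'.index + 2 ≤ 2 * M.index →
  (s + 1) * S'.index ≤ M.index → 4 * S'.index ≤ M.index → 1 ≤ s →
  2 ≤ ∑ z ∈ Us c M B ∩ va c S' a W Hp, ((Cs c B z).card - 1) → False

def S_K3L2B : Prop := ∀ (V G : Type) [Fintype V] [AddCommGroup G] [Fintype G] (c : V → V → G)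
  (M : AddSubgroup G) (B W : Finset V) (b1 : V) (S' : AddSubgroup G) (a : G) (Hp : Finset V)
  (z0 : V) (s : ℕ), K3H c M B → Wok c M B W → b1 ∈ B → PLii c M W B b1 S' a Hp z0 s →
  4 * S'.index + 2 * s ≤ M.index + 4 → (s + 1) * S'.index ≤ M.index → 4 * S'.index ≤ M.index →
  ∑ z ∈ Us c M B ∩ va c S' a W Hp, ((Cs c B z).card - 1) ≤ 1 → False

def S_K3 : Prop := ∀ (V G : Type) [Fintype V] [AddCommGroup G] [Fintype G] (c : V → V → G)
  (M : AddSubgroup G) (B : Finset V), K3H c M B → False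

/-- E2: enlargement for the subgroup of order two -/
def S_E2 : Prop := ∀ (V G : Type) [Fintype V] [AddCommGroup G] [Fintype G] (c : V → V → G),
  Ctx c → ∀ (M : AddSubgroup G) (B : Finset V), Nat.card M = 2 → 2 ≤ B.card → B.card ≤ 5 →
  (nc c M Finset.univ B).card + 2 ≤ M.index → Fintype.card G ≤ FF c B + 1 →
  ∃ H : Finset V, B ⊆ H ∧ Fintype.card G ≤ FF c H + 1 ∧
    M.index ≤ (nc c M Finset.univ H).card + 1 ∧ Fintype.card G ≤ 2 * (Finset.univ \ H).card ∧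
    ∃ E ⊆ Finset.univ \ H, H.card ≤ 4 + E.card ∧
      ∀ z ∈ E, ∃ x ∈ Cs c H z, ∃ y ∈ Cs c H z, x ≠ y ∧ x - y ∈ M

/-! ### The base hub set -/

def S_FFN : Prop := ∀ (V G : Type) [Fintype V] (c : V → V → G) (B : Finset V), B.Nonempty →
  FF c B + n1 c B + B.card = Fintype.card V + n3 c B

/-- GAIN -/
def S_GAIN : Prop := ∀ (V G : Type) [Fintype V] [AddCommGroup G] [Fintype G] (c : V → V → G),
  Ctx c → ∀ r : ℕ, (∀ x g g', g ≠ g' → r ≤ (Rs c x g g').card) → ∀ B : Finset V, B.Nonempty →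
  ((r : ℤ) - 1) * ((Finset.univ \ B).card : ℤ) + 2 * (n1 c B : ℤ) - ((r : ℤ) + 1) * (n3 c B : ℤ) ≤
    ∑ w ∈ Finset.univ \ B, ((FF c (insert w B) : ℤ) - (FF c B : ℤ))

/-- BT -/
def S_BT : Prop := ∀ (V G : Type) [Fintype V] [AddCommGroup G] [Fintype G] (c : V → V → G),
  Ctx c → ∀ r : ℕ, 2 ≤ r → r + 2 ≤ Fintype.card G →
  (∀ x g g', g ≠ g' → r ≤ (Rs c x g g').card) → ∀ (T : Finset V), T.card = 3 → n1 c T ≤ r →
  (∃ B : Finset V, 2 ≤ B.card ∧ B.card ≤ 5 ∧ Fintype.card G ≤ FF c B + 1) ∨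
  (r = 2 ∧ n1 c T = 2 ∧ n3 c T = 0 ∧ 6 ≤ Fintype.card G ∧ Fintype.card G ≤ 8)

def S_B8 : Prop := ∀ (V G : Type) [Fintype V] [AddCommGroup G] [Fintype G] (c : V → V → G),
  Ctx c → (∀ x g g', g ≠ g' → 2 ≤ (Rs c x g g').card) → ∀ (T : Finset V), T.card = 3 →
  n1 c T = 2 → n3 c T = 0 → (Fintype.card G = 8 ∨ Fintype.card G = 7) →
  ∃ B : Finset V, 2 ≤ B.card ∧ B.card ≤ 5 ∧ Fintype.card G ≤ FF c B + 1

def S_B6 : Prop := ∀ (V G : Type) [Fintype V] [AddCommGroup G] [Fintype G] (c : V → V → G),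
  Ctx c → (∀ x g g', g ≠ g' → 2 ≤ (Rs c x g g').card) → ∀ (T : Finset V), T.card = 3 →
  n1 c T = 2 → n3 c T = 0 → Fintype.card G = 6 →
  ∃ T' : Finset V, T'.card = 3 ∧ n1 c T' ≤ 1

/-- BASE -/
def S_BASE : Prop := ∀ (V G : Type) [Fintype V] [AddCommGroup G] [Fintype G] (c : V → V → G),
  Ctx c → 2 ≤ Fintype.card G → (∀ x g g', g ≠ g' → 2 ≤ (Rs c x g g').card) →
  ∃ B : Finset V, 2 ≤ B.card ∧ B.card ≤ 5 ∧ Fintype.card G ≤ FF c B + 1

/-! ### Vertices that see (almost) only two colours -/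

/-- colours of the triangle -/
noncomputable def Tri {V G : Type} (c : V → V → G) (T : Finset V) : Finset G :=
  ((T ×ˢ T).filter (fun e => e.1 ≠ e.2)).image (fun e => c e.1 e.2)

structure TSet {V G : Type} [Fintype V] (c : V → V → G) (x : V) (g1 g2 : G) (T : Finset V)
    (p1 p2 : V) : Prop where
  c3 : T.card = 3
  xT : x ∈ T
  p1T : p1 ∈ T
  p2T : p2 ∈ T
  p1x : p1 ≠ x
  p2x : p2 ≠ x
  p1c : c x p1 ≠ g1
  p2c : c x p2 ≠ g2
  s1 : ∀ y, y ≠ x → c x y = g1 → c y p1 ≠ g1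
  s2 : ∀ y, y ≠ x → c x y = g2 → c y p2 ≠ g2
  tri : n1 c T + 2 ≤ (Tri c T).card

def S_TS : Prop := ∀ (V G : Type) [Fintype V] [AddCommGroup G] [Fintype G] (c : V → V → G),
  Ctx c → ∀ (x : V) (g1 g2 : G), g1 ≠ g2 → (Rs c x g1 g2).card ≤ 1 →
  ∃ T p1 p2, TSet c x g1 g2 T p1 p2

def S_TK2 : Prop := ∀ (V G : Type) [Fintype V] [AddCommGroup G] [Fintype G] (c : V → V → G),
  Ctx c → ∀ (x : V) (g1 g2 : G), g1 ≠ g2 → (Rs c x g1 g2).card ≤ 1 →
  ∀ T p1 p2, TSet c x g1 g2 T p1 p2 → ∀ M : AddSubgroup G, Nat.card M = 2 →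
  M.index ≤ (nc c M Finset.univ T).card + 1

def S_TDIR : Prop := ∀ (V G : Type) [Fintype V] [AddCommGroup G] [Fintype G] (c : V → V → G),
  Ctx c → ∀ T : Finset V, T.card = 3 → n1 c T + 2 ≤ (Tri c T).card →
  (∀ R : AddSubgroup G, R ≠ ⊥ → R ≠ ⊤ → R.index ≤ (nc c R Finset.univ T).card + 1) → False

def S_TK : Prop := ∀ (V G : Type) [Fintype V] [AddCommGroup G] [Fintype G] (c : V → V → G),
  Ctx c → ∀ T : Finset V, T.card = 3 → n1 c T ≤ 1 → ∀ M : AddSubgroup G, M ≠ ⊤ →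
  3 ≤ Nat.card M → ¬ (Nat.card M = 3 ∧ M.index = 2) →
  (nc c M Finset.univ T).card + 2 ≤ M.index →
  (∀ R : AddSubgroup G, R ≠ ⊥ → R < M → R.index ≤ (nc c R Finset.univ T).card + 1) → False

def S_T6 : Prop := ∀ (V G : Type) [Fintype V] [AddCommGroup G] [Fintype G] (c : V → V → G),
  Ctx c → ∀ T : Finset V, T.card = 3 → n1 c T ≤ 1 → ∀ M : AddSubgroup G,
  Nat.card M = 3 → M.index = 2 → (nc c M Finset.univ T).card = 0 → False

def S_TREG : Prop := ∀ (V G : Type) [Fintype V] [AddCommGroup G] [Fintype G] (c : V → V → G),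
  Ctx c → ∀ (x : V) (g1 g2 : G), g1 ≠ g2 → (Rs c x g1 g2).card ≤ 1 → False

/-! ### Main theorem and bridge to the frozen statement -/

def S_MAIN : Prop := ∀ (V G : Type) [Fintype V] [AddCommGroup G] [Fintype G] [IsAddCyclic G]
  (c : V → V → G), (∀ x y, c x y = c y x) → Fintype.card V = Fintype.card G + 1 → DTree c

/-- BR0: the graph of a parent map of depth at most two -/
def S_BR0 : Prop := ∀ (n : ℕ) (g : Fin n) (p : Fin n → Fin n),
  (∀ v, v ≠ g → p v ≠ v ∧ (p v = g ∨ p (p v) = g)) →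
  ∃ T : SimpleGraph (Fin n), T.IsTree ∧ T.diam ≤ 4 ∧
    (∀ u v, T.Adj u v ↔ (u ≠ g ∧ p u = v) ∨ (v ≠ g ∧ p v = u)) ∧
    ∀ (G : Type) [AddCommGroup G] (w : Fin n → Fin n → G), (∀ u v, w u v = w v u) →
      ∑ u, ∑ v, (if T.Adj u v ∧ u < v then w u v else 0) = ∑ v ∈ Finset.univ.erase g, w v (p v)

/-- BR2: monochromatic tree in two colours -/
def S_BR2 : Prop := ∀ (V : Type) [Fintype V] (c : V → V → Fin 2), (∀ x y, c x y = c y x) →
  Nonempty V → ∃ (g : V) (p : V → V) (col : Fin 2),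
    ∀ v, v ≠ g → p v ≠ v ∧ (p v = g ∨ p (p v) = g) ∧ c v (p v) = col

end Pool.Agent.W593.ZT
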