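import Pool.Agent.W593.ZT.Stm

/-! Project ZT: vertices that see almost only two colours. -/

open scoped Classical

set_option autoImplicit false

namespace Pool.Agent.W593.ZT

/-- a minimal bad subgroup -/
theorem min_bad {V G : Type} [Fintype V] [AddCommGroup G] [Fintype G] (c : V → V → G)
    (B : Finset V)
    (h : ∃ T : AddSubgroup G, T ≠ ⊥ ∧ T ≠ ⊤ ∧ (nc c T Finset.univ B).card + 2 ≤ T.index) :
    ∃ M : AddSubgroup G, M ≠ ⊥ ∧ M ≠ ⊤ ∧ (nc c M Finset.univ B).card + 2 ≤ M.index ∧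
      ∀ R : AddSubgroup G, R ≠ ⊥ → R < M → R.index ≤ (nc c R Finset.univ B).card + 1 := by
  obtain ⟨M, hM, hmin⟩ := exists_minimal_of_wellFoundedLT
    (fun T : AddSubgroup G => T ≠ ⊥ ∧ T ≠ ⊤ ∧ (nc c T Finset.univ B).card + 2 ≤ T.index) h
  refine ⟨M, hM.1, hM.2.1, hM.2.2, ?_⟩
  intro R hR hRM
  by_contra hcon
  push Not at hcon
  have hRt : R ≠ ⊤ := by
    rintro rfl
    exact not_top_lt hRM
  have := hmin ⟨hR, hRt, by omega⟩ hRM.le
  exact absurd (lt_of_lt_of_le hRM this) (lt_irrefl _)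

theorem two_le_card {G : Type} [AddCommGroup G] [Fintype G] {M : AddSubgroup G} (h : M ≠ ⊥) :
    2 ≤ Nat.card M := by
  have h0 : Nat.card M ≠ 0 := Nat.card_pos.ne'
  have h1 : Nat.card M ≠ 1 := by
    intro hh
    exact h (AddSubgroup.card_eq_one.mp hh)
  omega

theorem tri_card_le {V G : Type} {c : V → V → G} (hc : ∀ x y, c x y = c y x) {T : Finset V}
    (hT : T.card = 3) : (Tri c T).card ≤ 3 := by
  obtain ⟨x, y, z, hxy, hxz, hyz, rfl⟩ := Finset.card_eq_three.mp hT
  have : Tri c {x, y, z} ⊆ {c x y, c x z, c y z} := by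
    intro g hg
    simp only [Tri, Finset.mem_image, Finset.mem_filter, Finset.mem_product, Finset.mem_insert,
      Finset.mem_singleton, Prod.exists] at hg
    obtain ⟨a, b, ⟨⟨ha, hb⟩, hab⟩, rfl⟩ := hg
    simp only [Finset.mem_insert, Finset.mem_singleton]
    rcases ha with rfl | rfl | rfl <;> rcases hb with rfl | rfl | rfl <;>
      first
        | exact absurd rfl hab
        | exact Or.inl rfl
        | exact Or.inr (Or.inl rfl)
        | exact Or.inr (Or.inr rfl)
        | exact Or.inl (hc _ _)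
        | exact Or.inr (Or.inl (hc _ _))
        | exact Or.inr (Or.inr (hc _ _))
  exact (Finset.card_le_card this).trans Finset.card_le_three

theorem treg (hTS : S_TS) (hTK2 : S_TK2) (hTDIR : S_TDIR) (hTK : S_TK) (hT6 : S_T6) :
    S_TREG := by
  intro V G _ _ _ c hctx x g1 g2 hg hR
  obtain ⟨T, p1, p2, hT⟩ := hTS V G c hctx x g1 g2 hg hR
  have h3 : (Tri c T).card ≤ 3 := tri_card_le hctx.sym hT.c3
  have htri := hT.tri
  have hn1 : n1 c T ≤ 1 := by omega
  by_cases hbad : ∃ M : AddSubgroup G, M ≠ ⊥ ∧ M ≠ ⊤ ∧ (nc c M Finset.univ T).card + 2 ≤ M.index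
  · obtain ⟨M, hM0, hM1, hMb, hmin⟩ := min_bad c T hbad
    have h2 : 2 ≤ Nat.card M := two_le_card hM0
    have hne2 : Nat.card M ≠ 2 := by
      intro hh
      have := hTK2 V G c hctx x g1 g2 hg hR T p1 p2 hT M hh
      omega
    by_cases h6 : Nat.card M = 3 ∧ M.index = 2
    · exact hT6 V G c hctx T hT.c3 hn1 M h6.1 h6.2 (by omega)
    · exact hTK V G c hctx T hT.c3 hn1 M hM1 (by omega) h6 hMb hmin
  · apply hTDIR V G c hctx T hT.c3 hT.tri
    intro R hR0 hR1
    by_contra hcon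
    push Not at hcon
    exact hbad ⟨R, hR0, hR1, by omega⟩

end Pool.Agent.W593.ZT
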